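import Pool.Agent.Work.MP_9954fe_nt.Weights

set_option autoImplicit false

namespace Pool.Agent.Results.MP_9954fe_nt.SplitWeights

open Finset Pool.Agent.Work.MP_9954fe_nt

/-- Let `n` be a positive integer that is not of the form `4^l (16 m + 6)` and not one of the 18
known exceptions. Give the prime 17 the weight 4, the primes 7, 11, 13, 19 the weight 3, the primes
31, 43, 47, 53, 71 the weight 2 and the prime 37 the weight 1. If `n` is even, or not squarefree, or
congruent to two modulo three, or if the weights of those of these primes modulo which `-10 n` is a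
nonzero square sum up to at least six, then `n` is represented by `x^2 + y^2 + 10 z^2`. -/
theorem result (n : ℕ) (hn : 0 < n) (hA : ¬ ∃ l m : ℕ, n = 4 ^ l * (16 * m + 6))
    (hE : n ∉ ({3, 7, 21, 31, 33, 43, 67, 79, 87, 133, 217, 219, 223, 253, 307, 391, 679, 2719} :
      Finset ℕ))
    (h : Even n ∨ ¬ Squarefree n ∨ n % 3 = 2 ∨
      ∃ S ⊆ ({(17, 4), (7, 3), (11, 3), (13, 3), (19, 3), (31, 2), (43, 2), (47, 2), (53, 2),
          (71, 2), (37, 1)} : Finset (ℕ × ℕ)),
        6 ≤ ∑ s ∈ S, s.2 ∧ ∀ s ∈ S, ¬ s.1 ∣ n ∧ ∃ r : ℤ, (s.1 : ℤ) ∣ r ^ 2 + 10 * n) :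
    ∃ x y z : ℤ, (n : ℤ) = x ^ 2 + y ^ 2 + 10 * z ^ 2 := by
  change Rep n
  by_cases he : Even n
  · exact rep_even n hn he hA
  have ho : Odd n := Nat.not_even_iff_odd.mp he
  by_cases hs : Squarefree n
  · by_cases h3 : n % 3 = 2
    · exact rep_two_mod_three n ho h3
    · rcases h with h | h | h | ⟨S, hS, hw, hsp⟩
      · exact absurd h he
      · exact absurd hs h
      · exact absurd h h3
      · by_contra hr
        have hm : n ∈ EE := weights n ho hr S hS hw fun s hs =>
          ⟨fun h => (hsp s hs).1 (by exact_mod_cast h), (hsp s hs).2⟩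
        apply hE
        simpa [EE] using hm
  · exact rep_of_not_squarefree n ho hs

end Pool.Agent.Results.MP_9954fe_nt.SplitWeights
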